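import Pool.Agent.Helper18.DC.DC1
import Pool.Agent.Helper79.DC.Nerve
import Pool.Agent.Helper70.DC.Toggle

set_option autoImplicit false
set_option linter.unusedSectionVars false

namespace Pool.Agent.DC.F60

open Finset

section

variable {U ι : Type} [Fintype U] [DecidableEq U] [Fintype ι] [DecidableEq ι]

/-- A nonzero value of `D c` at `A` comes from a cofacet. -/
theorem exists_cof {K : Cx (Finset (U × (U ⊕ ι)))} (hK : IsForest K)
    {c : Finset (U × (U ⊕ ι)) → ZMod 2} {A : Finset (U × (U ⊕ ι))} (h : K.D c A ≠ 0) :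
    A = ∅ ∨ (Tot A ∧ ∃ e, e ∉ A ∧ c (insert e A) ≠ 0) := by
  classical
  rw [hK.1] at h
  obtain ⟨B, hB, hcB⟩ := Finset.exists_ne_zero_of_sum_ne_zero h
  unfold cof at hB
  by_cases hT : Tot A
  · right
    refine ⟨hT, ?_⟩
    rw [if_pos hT, Finset.mem_image] at hB
    obtain ⟨e, he, rfl⟩ := hB
    exact ⟨e, by simpa using he, hcB⟩
  · left
    rw [if_neg hT] at hB
    by_contra hA
    rw [if_neg hA] at hB
    simp at hB

theorem not_tot_empty [Nonempty U] : ¬ Tot (∅ : Finset (U × (U ⊕ ι))) := by
  intro h
  obtain ⟨x, hx⟩ := h (Classical.arbitrary U)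
  simp at hx

theorem closed_prodSet [Nonempty U] (K : Cx (Finset (U × (U ⊕ ι)))) (hK : IsForest K)
    (O : Finset (U × (U ⊕ ι))) : Closed K (prodSet O) := by
  intro c hc A hA
  rcases exists_cof hK hA with h | ⟨hT, e, he, hce⟩
  · exact Or.inl h
  · rcases hc _ hce with h | ⟨_, h⟩
    · exact absurd h (Finset.insert_ne_empty _ _)
    · exact Or.inr ⟨hT, (Finset.subset_insert _ _).trans h⟩

theorem closed_XX [Nonempty U] (K : Cx (Finset (U × (U ⊕ ι)))) (hK : IsForest K)
    (adj : U → U ⊕ ι → Prop)
    (J : Finset ι) (τ : Finset (U × (U ⊕ ι))) : Closed K (XX adj J τ) := by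
  intro c hc A hA
  rcases exists_cof hK hA with h | ⟨hT, e, he, hce⟩
  · exact Or.inl h
  · rcases hc _ hce with h | ⟨hcell, hsub, huniq⟩
    · exact absurd h (Finset.insert_ne_empty _ _)
    · have hAB : A ⊆ insert e A := Finset.subset_insert _ _
      obtain ⟨ρ, hρ⟩ := hcell.acyc
      refine Or.inr ⟨⟨hT, fun u x h => hcell.adj u x (hAB h), fun u j h => hcell.root u j (hAB h),
        fun u x x' h h' hne w hw => hcell.leaf u x x' (hAB h) (hAB h') hne w (hAB hw),
        ρ, fun u w h => hρ u w (hAB h)⟩, ?_, fun u x y h h' => huniq u x y h (hAB h')⟩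
      rintro ⟨u, x⟩ hux
      obtain ⟨y, hy⟩ := hT u
      have := huniq u x y hux (hAB hy)
      rwa [this] at hy

/-- The vertices already attached. -/
def dm (τ : Finset (U × (U ⊕ ι))) : Finset U := τ.image Prod.fst

theorem mem_dm {τ : Finset (U × (U ⊕ ι))} {u : U} : u ∈ dm τ ↔ ∃ x, (u, x) ∈ τ := by
  unfold dm
  rw [Finset.mem_image]
  constructor
  · rintro ⟨⟨v, x⟩, h, rfl⟩
    exact ⟨x, h⟩
  · rintro ⟨x, h⟩
    exact ⟨(u, x), h, rfl⟩

open Classical in
/-- The possible new attachments. -/
noncomputable def EE (adj : U → U ⊕ ι → Prop) (J : Finset ι) (τ : Finset (U × (U ⊕ ι))) :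
    Finset (U × (U ⊕ ι)) :=
  univ.filter fun e => e.1 ∉ dm τ ∧ e.2 ∈ (dm τ).disjSum J ∧ adj e.1 e.2

theorem mem_EE {adj : U → U ⊕ ι → Prop} {J : Finset ι} {τ : Finset (U × (U ⊕ ι))} {u : U}
    {x : U ⊕ ι} : (u, x) ∈ EE adj J τ ↔ u ∉ dm τ ∧ x ∈ (dm τ).disjSum J ∧ adj u x := by
  unfold EE
  simp

/-- Rank function for a set of pairs contained in `τ ∪ EE`. -/
theorem acyc_of_subset {adj : U → U ⊕ ι → Prop} {J : Finset ι} {τ A : Finset (U × (U ⊕ ι))}
    (hτ : Good adj J τ) (hA : A ⊆ τ ∪ EE adj J τ) :
    ∃ ρ : U → ℕ, ∀ u w, (u, Sum.inl w) ∈ A → ρ w < ρ u := by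
  classical
  obtain ⟨ρ, hρ⟩ := hτ.acyc
  refine ⟨fun u => if u ∈ dm τ then ρ u else univ.sup ρ + 1, ?_⟩
  intro u w huw
  rcases Finset.mem_union.1 (hA huw) with h | h
  · have hw : w ∈ dm τ := mem_dm.2 (hτ.closed u w h)
    have hu : u ∈ dm τ := mem_dm.2 ⟨_, h⟩
    simp only [hw, hu, if_true]
    exact hρ u w h
  · obtain ⟨hu, hx, _⟩ := mem_EE.1 h
    have hw : w ∈ dm τ := by simpa using hx
    simp only [hw, hu, if_true, if_false]
    exact Nat.lt_succ_of_le (Finset.le_sup (f := ρ) (mem_univ w))

theorem good_union {adj : U → U ⊕ ι → Prop} {J : Finset ι} {τ σ : Finset (U × (U ⊕ ι))}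
    (hτ : Good adj J τ) (hσ : σ ⊆ EE adj J τ) (hinj : Set.InjOn Prod.fst (σ : Set (U × (U ⊕ ι)))) :
    Good adj J (τ ∪ σ) := by
  refine ⟨?_, ?_, ?_, ?_, acyc_of_subset hτ (Finset.union_subset_union_right hσ)⟩
  · intro u x h
    rcases Finset.mem_union.1 h with h | h
    · exact hτ.adj u x h
    · exact (mem_EE.1 (hσ h)).2.2
  · intro u j h
    rcases Finset.mem_union.1 h with h | h
    · exact hτ.root u j h
    · have := (mem_EE.1 (hσ h)).2.1
      simpa using this
  · intro u x y hx hy
    rcases Finset.mem_union.1 hx with hx | hx <;> rcases Finset.mem_union.1 hy with hy | hy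
    · exact hτ.func u x y hx hy
    · exact absurd (mem_dm.2 ⟨x, hx⟩) (mem_EE.1 (hσ hy)).1
    · exact absurd (mem_dm.2 ⟨y, hy⟩) (mem_EE.1 (hσ hx)).1
    · exact congrArg Prod.snd (hinj (Finset.mem_coe.2 hx) (Finset.mem_coe.2 hy) rfl)
  · intro u w h
    rcases Finset.mem_union.1 h with h | h
    · obtain ⟨x, hx⟩ := hτ.closed u w h
      exact ⟨x, Finset.mem_union_left _ hx⟩
    · have := (mem_EE.1 (hσ h)).2.1
      have hw : w ∈ dm τ := by simpa using this
      obtain ⟨x, hx⟩ := mem_dm.1 hw
      exact ⟨x, Finset.mem_union_left _ hx⟩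

/-- intersections of the sets of cells extending `insert e τ` -/
theorem inter_XX {adj : U → U ⊕ ι → Prop} {J : Finset ι} {τ σ : Finset (U × (U ⊕ ι))}
    (hne : σ.Nonempty) :
    {A | ∀ e ∈ σ, A ∈ XX adj J (insert e τ)} = XX adj J (τ ∪ σ) := by
  ext A
  constructor
  · intro h
    by_cases hA : A = ∅
    · exact Or.inl hA
    · obtain ⟨e0, he0⟩ := hne
      have key : ∀ e ∈ σ, IsCell adj J A ∧ insert e τ ⊆ A ∧
          ∀ u x y, (u, x) ∈ insert e τ → (u, y) ∈ A → y = x := by
        intro e he
        rcases h e he with h | h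
        · exact absurd h hA
        · exact h
      refine Or.inr ⟨(key e0 he0).1, ?_, ?_⟩
      · apply Finset.union_subset
        · exact (Finset.subset_insert _ _).trans (key e0 he0).2.1
        · intro e he
          exact (key e he).2.1 (Finset.mem_insert_self _ _)
      · intro u x y hx hy
        rcases Finset.mem_union.1 hx with hx | hx
        · exact (key e0 he0).2.2 u x y (Finset.mem_insert_of_mem hx) hy
        · exact (key _ hx).2.2 u x y (Finset.mem_insert_self _ _) hy
  · intro h e he
    rcases h with h | ⟨h1, h2, h3⟩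
    · exact Or.inl h
    · have hsub : insert e τ ⊆ τ ∪ σ := by
        apply Finset.insert_subset (Finset.mem_union_right _ he) Finset.subset_union_left
      exact Or.inr ⟨h1, hsub.trans h2, fun u x y hx hy => h3 u x y (hsub hx) hy⟩

/-- cells not extending any further pair are contained in `τ ∪ EE` -/
theorem cover_XX {adj : U → U ⊕ ι → Prop} {J : Finset ι} {τ A : Finset (U × (U ⊕ ι))}
    (hcell : IsCell adj J A) (hsub : τ ⊆ A) (huniq : ∀ u x y, (u, x) ∈ τ → (u, y) ∈ A → y = x)
    (hnot : ∀ e ∈ EE adj J τ, A ∉ XX adj J (insert e τ)) : A ⊆ τ ∪ EE adj J τ := by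
  obtain ⟨ρ, hρ⟩ := hcell.acyc
  have key : ∀ n u, ρ u = n → ∀ x, (u, x) ∈ A → (u, x) ∈ τ ∪ EE adj J τ := by
    intro n
    induction n using Nat.strong_induction_on with
    | _ n ih =>
      intro u hu x hx
      by_cases hd : u ∈ dm τ
      · obtain ⟨y, hy⟩ := mem_dm.1 hd
        have := huniq u y x hy hx
        rw [this]
        exact Finset.mem_union_left _ hy
      · refine Finset.mem_union_right _ (mem_EE.2 ⟨hd, ?_, hcell.adj u x hx⟩)
        rcases x with w | j
        · rw [Finset.inl_mem_disjSum]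
          by_contra hw
          obtain ⟨z, hz⟩ := hcell.tot w
          have hzE : (w, z) ∈ EE adj J τ := by
            have := ih (ρ w) (hu ▸ hρ u w hx) w rfl z hz
            rcases Finset.mem_union.1 this with h | h
            · exact absurd (mem_dm.2 ⟨z, h⟩) hw
            · exact h
          apply hnot _ hzE
          refine Or.inr ⟨hcell, ?_, ?_⟩
          · exact Finset.insert_subset hz hsub
          · intro u' x' y' hx' hy'
            rcases Finset.mem_insert.1 hx' with h | h
            · obtain ⟨rfl, rfl⟩ := Prod.mk.inj h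
              by_contra hne
              exact hcell.leaf u' y' x' hy' hz hne u hx
            · exact huniq u' x' y' h hy'
        · rw [Finset.inr_mem_disjSum]
          exact hcell.root u j hx
  rintro ⟨u, x⟩ hux
  exact key _ u rfl x hux

theorem prodSet_subset_XX {adj : U → U ⊕ ι → Prop} {J : Finset ι} {τ : Finset (U × (U ⊕ ι))}
    (hτ : Good adj J τ) : prodSet (τ ∪ EE adj J τ) ⊆ XX adj J τ := by
  rintro A (h | ⟨hT, hA⟩)
  · exact Or.inl h
  · have h1 : ∀ u x, (u, x) ∈ A → u ∈ dm τ → (u, x) ∈ τ := by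
      intro u x hx hu
      rcases Finset.mem_union.1 (hA hx) with h | h
      · exact h
      · exact absurd hu (mem_EE.1 h).1
    refine Or.inr ⟨⟨hT, ?_, ?_, ?_, acyc_of_subset hτ hA⟩, ?_, ?_⟩
    · intro u x hx
      rcases Finset.mem_union.1 (hA hx) with h | h
      · exact hτ.adj u x h
      · exact (mem_EE.1 h).2.2
    · intro u j hx
      rcases Finset.mem_union.1 (hA hx) with h | h
      · exact hτ.root u j h
      · have := (mem_EE.1 h).2.1
        simpa using this
    · intro u x x' hx hx' hne w hw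
      have hu : u ∈ dm τ := by
        rcases Finset.mem_union.1 (hA hw) with h | h
        · exact mem_dm.2 (hτ.closed w u h)
        · have := (mem_EE.1 h).2.1
          simpa using this
      exact hne (hτ.func u x x' (h1 u x hx hu) (h1 u x' hx' hu))
    · rintro ⟨u, x⟩ hux
      obtain ⟨y, hy⟩ := hT u
      have hu : u ∈ dm τ := mem_dm.2 ⟨x, hux⟩
      rw [hτ.func u x y hux (h1 u y hy hu)]
      exact hy
    · intro u x y hx hy
      exact hτ.func u y x (h1 u y hy (mem_dm.2 ⟨x, hx⟩)) hx

theorem inter_prodSet {adj : U → U ⊕ ι → Prop} {J : Finset ι} {τ σ : Finset (U × (U ⊕ ι))}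
    (hτ : Good adj J τ) (hσ : σ ⊆ EE adj J τ)
    (hinj : Set.InjOn Prod.fst (σ : Set (U × (U ⊕ ι)))) :
    XX adj J (τ ∪ σ) ∩ prodSet (τ ∪ EE adj J τ) =
      prodSet (τ ∪ σ ∪ (EE adj J τ).filter fun e => e.1 ∉ dm σ) := by
  ext A
  constructor
  · rintro ⟨h1, h2⟩
    rcases h2 with h2 | ⟨hT, hA⟩
    · exact Or.inl h2
    rcases h1 with h1 | ⟨hc, hs, hu⟩
    · exact Or.inl h1
    refine Or.inr ⟨hT, ?_⟩
    rintro ⟨u, x⟩ hux
    rcases Finset.mem_union.1 (hA hux) with h | h
    · exact Finset.mem_union_left _ (Finset.mem_union_left _ h)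
    · by_cases hd : u ∈ dm σ
      · obtain ⟨y, hy⟩ := mem_dm.1 hd
        have := hu u y x (Finset.mem_union_right _ hy) hux
        rw [this]
        exact Finset.mem_union_left _ (Finset.mem_union_right _ hy)
      · exact Finset.mem_union_right _ (Finset.mem_filter.2 ⟨h, hd⟩)
  · rintro (h | ⟨hT, hA⟩)
    · exact ⟨Or.inl h, Or.inl h⟩
    · have hsub : A ⊆ τ ∪ EE adj J τ := by
        refine hA.trans ?_
        apply Finset.union_subset (Finset.union_subset Finset.subset_union_left
          (hσ.trans Finset.subset_union_right))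
        exact (Finset.filter_subset _ _).trans Finset.subset_union_right
      have hP : A ∈ prodSet (τ ∪ EE adj J τ) := Or.inr ⟨hT, hsub⟩
      refine ⟨?_, hP⟩
      rcases prodSet_subset_XX hτ hP with h | ⟨hc, hs, hu⟩
      · exact Or.inl h
      have h1 : ∀ u x y, (u, x) ∈ σ → (u, y) ∈ A → y = x := by
        intro u x y hx hy
        have hnd : u ∉ dm τ := (mem_EE.1 (hσ hx)).1
        rcases Finset.mem_union.1 (hA hy) with h | h
        · rcases Finset.mem_union.1 h with h | h
          · exact absurd (mem_dm.2 ⟨y, h⟩) hnd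
          · exact congrArg Prod.snd (hinj (Finset.mem_coe.2 h) (Finset.mem_coe.2 hx) rfl)
        · exact absurd (mem_dm.2 ⟨x, hx⟩) (Finset.mem_filter.1 h).2
      refine Or.inr ⟨hc, ?_, ?_⟩
      · apply Finset.union_subset hs
        rintro ⟨u, x⟩ hux
        obtain ⟨y, hy⟩ := hT u
        rw [← h1 u x y hux hy]
        exact hy
      · intro u x y hx hy
        rcases Finset.mem_union.1 hx with hx | hx
        · exact hu u x y hx hy
        · exact h1 u x y hx hy

theorem relAc_self {α : Type} (K : Cx α) (d : ℕ) (S : Set α) : RelAc K d S S := by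
  intro n _ c hc _
  have h0 : K.D 0 = 0 := K.D_zero 0 (fun a h => absurd rfl h)
  exact ⟨0, c, fun a h => absurd rfl h, hc, by rw [h0, zero_add]⟩

theorem relAc_forest_aux [Nonempty U] (K : Cx (Finset (U × (U ⊕ ι)))) (hK : IsForest K)
    (adj : U → U ⊕ ι → Prop) (J : Finset ι) (hexp : Expand adj J) :
    ∀ n (τ : Finset (U × (U ⊕ ι))), Good adj J τ → (dm τ)ᶜ.card = n →
      RelAc K J.card (XX adj J τ) ∅ := by
  classical
  intro n
  induction n using Nat.strong_induction_on with
  | _ n ih =>
    intro τ hτ hn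
    -- trivial degree
    rcases Nat.eq_zero_or_pos J.card with hJ0 | hJpos
    · rw [hJ0]
      intro m hm
      exact absurd hm (Nat.not_lt_zero _)
    -- intersections
    have hstep : ∀ σ ⊆ EE adj J τ, σ.Nonempty →
        Set.InjOn Prod.fst (σ : Set (U × (U ⊕ ι))) →
        RelAc K J.card (XX adj J (τ ∪ σ)) ∅ := by
      intro σ hσ hne hinj
      refine ih _ ?_ (τ ∪ σ) (good_union hτ hσ hinj) rfl
      rw [← hn]
      apply Finset.card_lt_card
      rw [Finset.compl_ssubset_compl]
      obtain ⟨⟨u, x⟩, he⟩ := hne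
      refine (Finset.ssubset_iff_of_subset ?_).2 ⟨u, ?_, (mem_EE.1 (hσ he)).1⟩
      · intro v hv
        obtain ⟨y, hy⟩ := mem_dm.1 hv
        exact mem_dm.2 ⟨y, Finset.mem_union_left _ hy⟩
      · exact mem_dm.2 ⟨x, Finset.mem_union_right _ he⟩
    by_cases hin : ∀ y ∉ dm τ, ∃ x ∈ (dm τ).disjSum J, adj y x
    · -- case (ii)
      have hOtot : ∀ σ ⊆ EE adj J τ,
          Tot (τ ∪ σ ∪ (EE adj J τ).filter fun e => e.1 ∉ dm σ) := by
        intro σ hσ u
        by_cases hu : u ∈ dm τ
        · obtain ⟨x, hx⟩ := mem_dm.1 hu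
          exact ⟨x, Finset.mem_union_left _ (Finset.mem_union_left _ hx)⟩
        · by_cases hu' : u ∈ dm σ
          · obtain ⟨x, hx⟩ := mem_dm.1 hu'
            exact ⟨x, Finset.mem_union_left _ (Finset.mem_union_right _ hx)⟩
          · obtain ⟨x, hx, hadj⟩ := hin u hu
            exact ⟨x, Finset.mem_union_right _ (Finset.mem_filter.2
              ⟨mem_EE.2 ⟨hu, hx, hadj⟩, hu'⟩)⟩
      have hOtot' : Tot (τ ∪ EE adj J τ) := by
        intro u
        by_cases hu : u ∈ dm τ
        · obtain ⟨x, hx⟩ := mem_dm.1 hu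
          exact ⟨x, Finset.mem_union_left _ hx⟩
        · obtain ⟨x, hx, hadj⟩ := hin u hu
          exact ⟨x, Finset.mem_union_right _ (mem_EE.2 ⟨hu, hx, hadj⟩)⟩
      have hXX : XX adj J τ =
          {A | ∃ e ∈ EE adj J τ, A ∈ XX adj J (insert e τ)} ∪ prodSet (τ ∪ EE adj J τ) := by
        ext A
        constructor
        · intro h
          rcases h with h | ⟨hc, hs, hu⟩
          · exact Or.inr (Or.inl h)
          · by_cases hex : ∃ e ∈ EE adj J τ, A ∈ XX adj J (insert e τ)
            · exact Or.inl hex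
            · right
              push Not at hex
              exact Or.inr ⟨hc.tot, cover_XX hc hs hu hex⟩
        · rintro (⟨e, he, h⟩ | h)
          · rcases h with h | ⟨hc, hs, hu⟩
            · exact Or.inl h
            · exact Or.inr ⟨hc, (Finset.subset_insert _ _).trans hs,
                fun u x y hx hy => hu u x y (Finset.mem_insert_of_mem hx) hy⟩
          · exact prodSet_subset_XX hτ h
      rw [hXX]
      have hP : Closed K (prodSet (τ ∪ EE adj J τ)) := closed_prodSet K hK _
      have hcl : ∀ e, Closed K (XX adj J (insert e τ)) := fun e => closed_XX K hK _ _ _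
      apply relAc_cone K _ ?_ hP (relAc_prod K hK _ hOtot' _)
      · have := relAc_cover K J.card (EE adj J τ) (fun e => XX adj J (insert e τ))
          (fun e => XX adj J (insert e τ) ∩ prodSet (τ ∪ EE adj J τ)) hcl
          (fun e => closed_inter K (hcl e) hP) (fun e => Set.inter_subset_left) ?_
        · convert this using 1
          ext A
          constructor
          · rintro ⟨⟨e, he, h⟩, h'⟩
            exact ⟨e, he, h, h'⟩
          · rintro ⟨e, he, h, h'⟩
            exact ⟨⟨e, he, h⟩, h'⟩
        · intro σ hσ hne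
          have e1 := inter_XX (adj := adj) (J := J) (τ := τ) hne
          have e2 : {a | ∀ i ∈ σ, a ∈ XX adj J (insert i τ) ∩ prodSet (τ ∪ EE adj J τ)} =
              XX adj J (τ ∪ σ) ∩ prodSet (τ ∪ EE adj J τ) := by
            rw [← e1]
            ext A
            constructor
            · intro h
              obtain ⟨e0, he0⟩ := hne
              exact ⟨fun e he => (h e he).1, (h e0 he0).2⟩
            · rintro ⟨h, h'⟩ e he
              exact ⟨h e he, h'⟩
          rw [e1, e2]
          by_cases hinj : Set.InjOn Prod.fst (σ : Set (U × (U ⊕ ι)))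
          · apply relAc_pair K _ (closed_XX K hK _ _ _) (closed_inter K (closed_XX K hK _ _ _) hP)
              Set.inter_subset_left (hstep σ hσ hne hinj)
            rw [inter_prodSet hτ hσ hinj]
            exact relAc_prod K hK _ (hOtot σ hσ) _
          · -- both sets are `{∅}`
            have hXe : XX adj J (τ ∪ σ) ⊆ {∅} := by
              intro A hA
              rcases hA with h | ⟨hc, hs, hu⟩
              · exact h
              · exfalso
                apply hinj
                rintro ⟨u, x⟩ h1 ⟨u', x'⟩ h2 (h3 : u = u')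
                subst h3
                have := hu u x x' (Finset.mem_union_right _ (Finset.mem_coe.1 h1))
                  (hs (Finset.mem_union_right _ (Finset.mem_coe.1 h2)))
                rw [this]
            have hXe' : XX adj J (τ ∪ σ) ∩ prodSet (τ ∪ EE adj J τ) = XX adj J (τ ∪ σ) := by
              apply Set.inter_eq_left.2
              intro A hA
              exact Or.inl (hXe hA)
            rw [hXe']
            exact relAc_self K _ _
      · -- closedness of the union
        intro c hc A hA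
        rcases exists_cof hK hA with h | ⟨hT, e, he, hce⟩
        · -- `A = ∅`
          -- there is a cofacet in the support
          rw [hK.1] at hA
          obtain ⟨B, hB, hcB⟩ := Finset.exists_ne_zero_of_sum_ne_zero hA
          obtain ⟨e, he, _⟩ := hc B hcB
          exact ⟨e, he, Or.inl h⟩
        · obtain ⟨e', he', hm⟩ := hc _ hce
          refine ⟨e', he', ?_⟩
          apply hcl e' (fun B => if B = insert e A then 1 else 0) ?_ A ?_
          · intro B hB
            by_cases hBe : B = insert e A
            · rw [hBe]; exact hm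
            · simp [hBe] at hB
          · rw [hK.1]
            rw [Finset.sum_ite_eq']
            have : insert e A ∈ cof A := by
              unfold cof
              rw [if_pos hT]
              exact Finset.mem_image.2 ⟨e, by simpa using he, rfl⟩
            simp [this]
    · -- case (i)
      push Not at hin
      obtain ⟨y0, hy0, hno⟩ := hin
      have hheads : J.card ≤ ((EE adj J τ).image Prod.fst).card := by
        rcases hexp (dm τ) with ⟨Y, hY, hY'⟩ | h
        · refine hY.trans (Finset.card_le_card ?_)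
          intro y hy
          obtain ⟨hy1, x, hx, hadj⟩ := hY' y hy
          exact Finset.mem_image.2 ⟨(y, x), mem_EE.2 ⟨hy1, hx, hadj⟩, rfl⟩
        · obtain ⟨x, hx, hadj⟩ := h y0 hy0
          exact absurd hadj (hno x hx)
      have hEne : (EE adj J τ).Nonempty := by
        have : 0 < ((EE adj J τ).image Prod.fst).card := lt_of_lt_of_le hJpos hheads
        rw [Finset.card_pos] at this
        exact Finset.image_nonempty.1 this
      have hXX : XX adj J τ = {A | ∃ e ∈ EE adj J τ, A ∈ XX adj J (insert e τ)} := by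
        ext A
        constructor
        · intro h
          rcases h with h | ⟨hc, hs, hu⟩
          · obtain ⟨e, he⟩ := hEne
            exact ⟨e, he, Or.inl h⟩
          · by_contra hex
            change ¬ ∃ e ∈ EE adj J τ, A ∈ XX adj J (insert e τ) at hex
            push Not at hex
            have hsub := cover_XX hc hs hu hex
            obtain ⟨x, hx⟩ := hc.tot y0
            rcases Finset.mem_union.1 (hsub hx) with h | h
            · exact hy0 (mem_dm.2 ⟨x, h⟩)
            · obtain ⟨_, h2, h3⟩ := mem_EE.1 h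
              exact hno x h2 h3
        · rintro ⟨e, he, h⟩
          rcases h with h | ⟨hc, hs, hu⟩
          · exact Or.inl h
          · exact Or.inr ⟨hc, (Finset.subset_insert _ _).trans hs,
              fun u x y hx hy => hu u x y (Finset.mem_insert_of_mem hx) hy⟩
      rw [hXX]
      have := relAc_nerve K (∅ : Finset (U × (U ⊕ ι))) Prod.fst J.card (EE adj J τ)
        (fun e => XX adj J (insert e τ)) (fun e => closed_XX K hK _ _ _)
        (fun e he => Or.inl rfl) ?_ ?_
      · rwa [min_eq_left hheads] at this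
      · rintro ⟨u, x⟩ hi ⟨u', x'⟩ hj hne (hh : u = u') A ⟨h1, h2⟩
        subst hh
        rcases h1 with h1 | ⟨hc, hs, hu⟩
        · exact h1
        rcases h2 with h2 | ⟨hc', hs', hu'⟩
        · exact h2
        exfalso
        apply hne
        have := hu u x x' (Finset.mem_insert_self _ _) (hs' (Finset.mem_insert_self _ _))
        rw [this]
      · intro σ hσ hne hinj
        rw [inter_XX (adj := adj) (J := J) (τ := τ) hne]
        exact hstep σ hσ hne hinj

end

end Pool.Agent.DC.F60

namespace Pool.Agent.DC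

open Finset

theorem closed_XX {U ι : Type} [Fintype U] [DecidableEq U] [Fintype ι] [DecidableEq ι]
    [Nonempty U] (K : Cx (Finset (U × (U ⊕ ι)))) (hK : IsForest K) (adj : U → U ⊕ ι → Prop)
    (J : Finset ι) (τ : Finset (U × (U ⊕ ι))) : Closed K (XX adj J τ) :=
  F60.closed_XX K hK adj J τ

theorem relAc_forest {U ι : Type} [Fintype U] [DecidableEq U] [Fintype ι] [DecidableEq ι]
    [Nonempty U] (K : Cx (Finset (U × (U ⊕ ι)))) (hK : IsForest K) (adj : U → U ⊕ ι → Prop)
    (J : Finset ι) (hexp : Expand adj J) (τ : Finset (U × (U ⊕ ι))) (hτ : Good adj J τ) :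
    RelAc K J.card (XX adj J τ) ∅ :=
  F60.relAc_forest_aux K hK adj J hexp _ τ hτ rfl

end Pool.Agent.DC
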